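import Pool.Agent.K1H79.SX.Stm

/-! # SX-3: the ambiguous classes of a cyclic cubic extension -/

set_option autoImplicit false

namespace K1H26.SX

open NumberField Pool.Agent.K1H79.SX
open scoped nonZeroDivisors

/-- the index of the cubes in the units -/
theorem units_index (E : Type) [Field E] [NumberField E] :
    (powMonoidHom 3 : (𝓞 E)ˣ →* (𝓞 E)ˣ).range.index =
      (Nat.card (NumberField.Units.torsion E)).gcd 3 * 3 ^ NumberField.Units.rank E := by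
  classical
  let Ψ : (NumberField.Units.torsion E) × Multiplicative (Fin (NumberField.Units.rank E) → ℤ) →* (𝓞 E)ˣ :=
    { toFun := fun q => (q.1 : (𝓞 E)ˣ) *
        ∏ i, (NumberField.Units.fundSystem E i) ^ (Multiplicative.toAdd q.2 i)
      map_one' := by simp
      map_mul' := by
        intro a b
        simp only [Prod.fst_mul, Subgroup.coe_mul, Prod.snd_mul, toAdd_mul, Pi.add_apply, zpow_add,
          Finset.prod_mul_distrib]
        exact mul_mul_mul_comm _ _ _ _ }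
  have hb : Function.Bijective Ψ := by
    constructor
    · intro a b hab
      obtain ⟨c, -, huniq⟩ := NumberField.Units.exist_unique_eq_mul_prod E (Ψ a)
      have h1 := huniq (a.1, Multiplicative.toAdd a.2) rfl
      have h2 := huniq (b.1, Multiplicative.toAdd b.2) hab
      have h3 := h1.trans h2.symm
      simp only [Prod.mk.injEq] at h3
      exact Prod.ext h3.1 h3.2
    · intro x
      obtain ⟨c, hc, -⟩ := NumberField.Units.exist_unique_eq_mul_prod E x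
      exact ⟨(c.1, Multiplicative.ofAdd c.2), hc.symm⟩
  let e := MulEquiv.ofBijective Ψ hb
  have hS : (powMonoidHom 3 : (𝓞 E)ˣ →* (𝓞 E)ˣ).range =
      ((powMonoidHom 3 : (NumberField.Units.torsion E) →* (NumberField.Units.torsion E)).range.prod
        (powMonoidHom 3 : Multiplicative (Fin (NumberField.Units.rank E) → ℤ) →*
          Multiplicative (Fin (NumberField.Units.rank E) → ℤ)).range).map (e : _ →* (𝓞 E)ˣ) := by
    ext x
    constructor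
    · rintro ⟨y, rfl⟩
      obtain ⟨q, rfl⟩ := e.surjective y
      refine ⟨q ^ 3, ⟨⟨q.1, rfl⟩, ⟨q.2, rfl⟩⟩, ?_⟩
      exact map_pow e q 3
    · rintro ⟨q, ⟨⟨a, ha⟩, ⟨b, hb⟩⟩, rfl⟩
      refine ⟨e (a, b), ?_⟩
      have : q = (a, b) ^ 3 := Prod.ext ha.symm hb.symm
      rw [this]
      exact (map_pow e (a, b) 3).symm
  rw [hS, Subgroup.index_map_equiv, Subgroup.index_prod, IsCyclic.index_powMonoidHom_range]
  have h1 : (powMonoidHom 3 : Multiplicative (Fin (NumberField.Units.rank E) → ℤ) →*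
          Multiplicative (Fin (NumberField.Units.rank E) → ℤ)).range =
      AddSubgroup.toSubgroup (nsmulAddMonoidHom (α := (Fin (NumberField.Units.rank E) → ℤ)) 3).range := by
    ext x
    rfl
  rw [h1, AddSubgroup.index_toSubgroup, AddSubgroup.index_range_nsmul, Module.finrank_fin_fun]

theorem units_index_pos (E : Type) [Field E] [NumberField E] :
    0 < (powMonoidHom 3 : (𝓞 E)ˣ →* (𝓞 E)ˣ).range.index := by
  rw [units_index]
  exact Nat.mul_pos (Nat.gcd_pos_of_pos_right _ (by norm_num)) (by positivity)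

theorem units_index_le (E : Type) [Field E] [NumberField E] :
    (powMonoidHom 3 : (𝓞 E)ˣ →* (𝓞 E)ˣ).range.index ≤ 3 ^ Module.finrank ℚ E := by
  rw [units_index]
  have h1 : (Nat.card (NumberField.Units.torsion E)).gcd 3 ≤ 3 := Nat.gcd_le_right _ (by norm_num)
  have h2 : NumberField.Units.rank E + 1 ≤ Module.finrank ℚ E := by
    have h3 := NumberField.InfinitePlace.card_add_two_mul_card_eq_rank E
    have h4 := NumberField.InfinitePlace.card_eq_nrRealPlaces_add_nrComplexPlaces E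
    have h5 : 0 < Fintype.card (NumberField.InfinitePlace E) := Fintype.card_pos
    unfold NumberField.Units.rank
    omega
  calc _ ≤ 3 * 3 ^ NumberField.Units.rank E := Nat.mul_le_mul_right _ h1
    _ = 3 ^ (NumberField.Units.rank E + 1) := by rw [pow_succ]; ring
    _ ≤ _ := Nat.pow_le_pow_right (by norm_num) h2

variable {F M : Type} [Field F] [NumberField F] [Field M] [NumberField M] [Algebra F M]

theorem sg_coe (σ : M ≃ₐ[F] M) (x : 𝓞 M) : ((sg σ x : 𝓞 M) : M) = σ (x : M) := rfl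

theorem norm_unit (σ : M ≃ₐ[F] M) {I : Ideal (𝓞 M)} (hI : I ≠ ⊥) {x y : 𝓞 M}
    (h : Ideal.span {x} * I = Ideal.span {y} * I.map (sg σ : 𝓞 M →+* 𝓞 M)) :
    ∃ u : (𝓞 F)ˣ, Algebra.norm F (x : M) * ((u : 𝓞 F) : F) = Algebra.norm F (y : M) := by
  have h1 := congrArg (Ideal.relNorm (𝓞 F)) h
  have hmap : I.map (sg σ : 𝓞 M →+* 𝓞 M)
      = I.map (RingOfIntegers.mapAlgEquiv σ : 𝓞 M ≃ₐ[𝓞 F] 𝓞 M) := rfl
  rw [map_mul, map_mul, hmap, Ideal.relNorm_map_algEquiv] at h1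
  have h0 : Ideal.relNorm (𝓞 F) I ≠ 0 := by
    rw [Ne, Ideal.zero_eq_bot, Ideal.relNorm_eq_bot_iff]
    exact hI
  have h2 := mul_right_cancel₀ h0 h1
  rw [Ideal.relNorm_singleton, Ideal.relNorm_singleton, Ideal.span_singleton_eq_span_singleton] at h2
  obtain ⟨u, hu⟩ := h2
  refine ⟨u, ?_⟩
  have h3 : ∀ z : 𝓞 M, ((Algebra.intNorm (𝓞 F) (𝓞 M) z : 𝓞 F) : F) = Algebra.norm F (z : M) := fun z =>
    Algebra.algebraMap_intNorm (A := 𝓞 F) (K := F) (L := M) (B := 𝓞 M) z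
  rw [← h3, ← h3, ← hu]
  exact (map_mul (algebraMap (𝓞 F) F) _ _).symm

theorem sg_comp (σ τ : M ≃ₐ[F] M) :
    (sg (σ * τ) : 𝓞 M →+* 𝓞 M) = (sg σ : 𝓞 M →+* 𝓞 M).comp (sg τ : 𝓞 M →+* 𝓞 M) := rfl

theorem map_one' (J : Ideal (𝓞 M)) : J.map (sg (1 : M ≃ₐ[F] M) : 𝓞 M →+* 𝓞 M) = J := by
  have : (sg (1 : M ≃ₐ[F] M) : 𝓞 M →+* 𝓞 M) = RingHom.id _ := rfl
  rw [this, Ideal.map_id]

theorem map_mul' (σ τ : M ≃ₐ[F] M) (J : Ideal (𝓞 M)) :
    J.map (sg (σ * τ) : 𝓞 M →+* 𝓞 M) = (J.map (sg τ : 𝓞 M →+* 𝓞 M)).map (sg σ : 𝓞 M →+* 𝓞 M) := by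
  rw [sg_comp, Ideal.map_map]

theorem inv_all {J : Ideal (𝓞 M)} (σ : M ≃ₐ[F] M) (hσ : ∀ τ : M ≃ₐ[F] M, τ ∈ Subgroup.zpowers σ)
    (h : J.map (sg σ : 𝓞 M →+* 𝓞 M) = J) (τ : M ≃ₐ[F] M) : J.map (sg τ : 𝓞 M →+* 𝓞 M) = J := by
  let S : Subgroup (M ≃ₐ[F] M) :=
    { carrier := {τ | J.map (sg τ : 𝓞 M →+* 𝓞 M) = J}
      one_mem' := map_one' J
      mul_mem' := by
        intro a b ha hb
        show J.map (sg (a * b) : 𝓞 M →+* 𝓞 M) = J
        rw [map_mul', hb, ha]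
      inv_mem' := by
        intro a ha
        show J.map (sg a⁻¹ : 𝓞 M →+* 𝓞 M) = J
        have h1 : (J.map (sg a : 𝓞 M →+* 𝓞 M)).map (sg a⁻¹ : 𝓞 M →+* 𝓞 M) = J := by
          rw [← map_mul', inv_mul_cancel, map_one']
        have ha' : J.map (sg a : 𝓞 M →+* 𝓞 M) = J := ha
        rw [ha'] at h1
        exact h1 }
  have h1 : Subgroup.zpowers σ ≤ S := by
    rw [Subgroup.zpowers_le]
    exact h
  exact h1 (hσ τ)

theorem exists_mult (β : M) (hβ : β ≠ 0) : ∃ (b : 𝓞 M) (n : ℤ), n ≠ 0 ∧ b ≠ 0 ∧ (b : M) = n * β := by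
  have halg : IsAlgebraic ℤ β := by
    have : IsAlgebraic ℚ β := Algebra.IsAlgebraic.isAlgebraic β
    exact (IsFractionRing.isAlgebraic_iff ℤ ℚ M).2 this
  obtain ⟨n, hn, hi⟩ := halg.exists_integral_multiple
  refine ⟨⟨n • β, hi⟩, n, hn, ?_, ?_⟩
  · intro h
    have h1 : (n • β : M) = 0 := congrArg (fun z : 𝓞 M => (z : M)) h
    rw [zsmul_eq_mul] at h1
    rcases mul_eq_zero.1 h1 with h2 | h2
    · exact hn (by exact_mod_cast h2)
    · exact hβ h2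
  · show (n • β : M) = n * β
    rw [zsmul_eq_mul]

theorem norm_div' (a b : M) (hb : b ≠ 0) : Algebra.norm F (a / b) = Algebra.norm F a / Algebra.norm F b := by
  have hNb := (Algebra.norm_ne_zero_iff (R := F)).2 hb
  rw [eq_div_iff hNb, ← map_mul, div_mul_cancel₀ _ hb]

theorem inv_of_coset [IsGalois F M] (h3 : Module.finrank F M = 3) (σ : M ≃ₐ[F] M)
    (hσ : ∀ τ : M ≃ₐ[F] M, τ ∈ Subgroup.zpowers σ)
    {I I' : (Ideal (𝓞 M))⁰} {x y x' y' : 𝓞 M} (hx : x ≠ 0) (hy : y ≠ 0) (hx' : x' ≠ 0) (hy' : y' ≠ 0)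
    (h : Ideal.span {x} * (I : Ideal (𝓞 M)) = Ideal.span {y} * (I : Ideal (𝓞 M)).map (sg σ : 𝓞 M →+* 𝓞 M))
    (h' : Ideal.span {x'} * (I' : Ideal (𝓞 M)) = Ideal.span {y'} * (I' : Ideal (𝓞 M)).map (sg σ : 𝓞 M →+* 𝓞 M))
    (u u' w : (𝓞 F)ˣ) (hu : Algebra.norm F (x : M) * ((u : 𝓞 F) : F) = Algebra.norm F (y : M))
    (hu' : Algebra.norm F (x' : M) * ((u' : 𝓞 F) : F) = Algebra.norm F (y' : M)) (huw : u = u' * w ^ 3) :
    InvI F M (ClassGroup.mk0 I * ClassGroup.mk0 I' ^ 2) := by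
  have hxM : (x : M) ≠ 0 := fun h => hx (RingOfIntegers.ext h)
  have hyM : (y : M) ≠ 0 := fun h => hy (RingOfIntegers.ext h)
  have hxM' : (x' : M) ≠ 0 := fun h => hx' (RingOfIntegers.ext h)
  have hyM' : (y' : M) ≠ 0 := fun h => hy' (RingOfIntegers.ext h)
  have hNx := (Algebra.norm_ne_zero_iff (R := F)).2 hxM
  have hNy := (Algebra.norm_ne_zero_iff (R := F)).2 hyM
  have hNx' := (Algebra.norm_ne_zero_iff (R := F)).2 hxM'
  have hNy' := (Algebra.norm_ne_zero_iff (R := F)).2 hyM'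
  have huF : ((u : 𝓞 F) : F) ≠ 0 := fun h => u.ne_zero (RingOfIntegers.ext h)
  have huF' : ((u' : 𝓞 F) : F) ≠ 0 := fun h => u'.ne_zero (RingOfIntegers.ext h)
  have hwF : ((w : 𝓞 F) : F) ≠ 0 := fun h => w.ne_zero (RingOfIntegers.ext h)
  have huwF : ((u : 𝓞 F) : F) = ((u' : 𝓞 F) : F) * ((w : 𝓞 F) : F) ^ 3 := by
    rw [huw]; push_cast; rfl
  set v : F := ((w : 𝓞 F) : F) * ((u' : 𝓞 F) : F) with hv
  have hnorm : Algebra.norm F ((x : M) / y * ((x' : M) / y') ^ 2 * algebraMap F M v) = 1 := by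
    rw [map_mul, map_mul, map_pow, norm_div' _ _ hyM, norm_div' _ _ hyM', Algebra.norm_algebraMap, h3, ← hu, ← hu', huwF, hv]
    field_simp
  have : IsCyclic (M ≃ₐ[F] M) := ⟨σ, hσ⟩
  obtain ⟨β, hβ⟩ := groupCohomology.exists_div_of_norm_eq_one hσ hnorm
  obtain ⟨b, n, hn, hb0, hb⟩ := exists_mult (β : M) β.ne_zero
  have hσb : ((sg σ b : 𝓞 M) : M) = n * σ (β : M) := by
    rw [sg_coe, hb, map_mul, map_intCast]
  have hσβ : σ (β : M) ≠ 0 := by
    intro h; exact β.ne_zero ((map_eq_zero σ).1 h)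
  -- the unit in `𝓞 M`
  set V : (𝓞 M)ˣ := Units.map (algebraMap (𝓞 F) (𝓞 M)).toMonoidHom (w * u') with hV
  have hVM : ((V : 𝓞 M) : M) = algebraMap F M v := by
    rw [hV, hv, Units.coe_map]
    show algebraMap (𝓞 M) M (algebraMap (𝓞 F) (𝓞 M) ((w * u' : (𝓞 F)ˣ) : 𝓞 F)) = _
    rw [← IsScalarTower.algebraMap_apply, IsScalarTower.algebraMap_apply (𝓞 F) F M]
    congr 1
  have key : b * (y * y' ^ 2) = (sg σ b) * (x * x' ^ 2) * V := by
    apply RingOfIntegers.ext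
    have e1 : (β : M) * ((y : M) * (y' : M) ^ 2) = ((x : M) * (x' : M) ^ 2 * algebraMap F M v) * σ (β : M) := by
      rw [div_eq_iff hσβ] at hβ
      generalize σ (β : M) = s at *
      rw [hβ]; field_simp
    show (b : M) * ((y : M) * (y' : M) ^ 2) = ((sg σ b : 𝓞 M) : M) * ((x : M) * (x' : M) ^ 2) * ((V : 𝓞 M) : M)
    rw [hσb, hVM, hb]
    linear_combination (n : M) * e1
  -- the invariant ideal
  have hspan0 : Ideal.span {b} ≠ (0 : Ideal (𝓞 M)) := by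
    rw [Ne, Ideal.zero_eq_bot, Ideal.span_singleton_eq_bot]; exact hb0
  have hY0 : Ideal.span {y * y' ^ 2} ≠ (0 : Ideal (𝓞 M)) := by
    rw [Ne, Ideal.zero_eq_bot, Ideal.span_singleton_eq_bot]
    exact mul_ne_zero hy (pow_ne_zero 2 hy')
  set Bd : (Ideal (𝓞 M))⁰ := ⟨Ideal.span {b}, mem_nonZeroDivisors_iff_ne_zero.2 hspan0⟩ with hBd
  refine ⟨Bd * (I * I' ^ 2), ?_, inv_all σ hσ ?_⟩
  · rw [map_mul, map_mul, map_pow]
    have : ClassGroup.mk0 Bd = 1 := by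
      rw [ClassGroup.mk0_eq_one_iff]
      exact ⟨⟨b, rfl⟩⟩
    rw [this, one_mul]
  · have e2 : ((Bd * (I * I' ^ 2) : (Ideal (𝓞 M))⁰) : Ideal (𝓞 M)) = Ideal.span {b} * ((I : Ideal (𝓞 M)) * (I' : Ideal (𝓞 M)) ^ 2) := rfl
    rw [e2]
    apply mul_left_cancel₀ hY0
    rw [Ideal.map_mul, Ideal.map_mul, Ideal.map_pow, Ideal.map_span, Set.image_singleton]
    have e3 : Ideal.span {y * y' ^ 2} = Ideal.span {y} * Ideal.span {y'} ^ 2 := by
      rw [Ideal.span_singleton_pow, Ideal.span_singleton_mul_span_singleton]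
    have e4 : Ideal.span {x * x' ^ 2} = Ideal.span {x} * Ideal.span {x'} ^ 2 := by
      rw [Ideal.span_singleton_pow, Ideal.span_singleton_mul_span_singleton]
    have e5 : Ideal.span {b * (y * y' ^ 2)} = Ideal.span {(sg σ b) * (x * x' ^ 2)} := by
      rw [key, Ideal.span_singleton_eq_span_singleton]
      exact (associated_mul_unit_left _ _ V.isUnit)
    calc Ideal.span {y * y' ^ 2} * (Ideal.span {((sg σ : 𝓞 M →+* 𝓞 M) b)} *
          ((I : Ideal (𝓞 M)).map (sg σ : 𝓞 M →+* 𝓞 M) * (I' : Ideal (𝓞 M)).map (sg σ : 𝓞 M →+* 𝓞 M) ^ 2))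
        = Ideal.span {((sg σ : 𝓞 M →+* 𝓞 M) b)} * ((Ideal.span {y} * (I : Ideal (𝓞 M)).map (sg σ : 𝓞 M →+* 𝓞 M))
            * (Ideal.span {y'} * (I' : Ideal (𝓞 M)).map (sg σ : 𝓞 M →+* 𝓞 M)) ^ 2) := by
          rw [e3]; ring
      _ = Ideal.span {sg σ b} * Ideal.span {x * x' ^ 2} * ((I : Ideal (𝓞 M)) * (I' : Ideal (𝓞 M)) ^ 2) := by
          rw [← h, ← h', e4]
          show Ideal.span {sg σ b} * _ = _
          ring
      _ = Ideal.span {b * (y * y' ^ 2)} * ((I : Ideal (𝓞 M)) * (I' : Ideal (𝓞 M)) ^ 2) := by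
          rw [e5, Ideal.span_singleton_mul_span_singleton]
      _ = _ := by
          rw [← Ideal.span_singleton_mul_span_singleton]; ring

theorem count {G Q : Type} [CommGroup G] [Finite G] [Finite Q] (H : Subgroup G)
    (φ : G → Q) (P : G → Prop) (hP : ∀ c ∈ H, ∀ c' ∈ H, φ c = φ c' → P (c * c' ^ 2)) :
    Nat.card H ≤ Nat.card Q * Nat.card {c : G // c ∈ H ∧ P c} := by
  classical
  rw [← Nat.card_prod]
  have hs : ∀ c : H, ∃ s : H, φ s = φ c := fun c => ⟨c, rfl⟩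
  let s : Q → H := fun q => if h : ∃ s : H, φ s = q then h.choose else 1
  have hsq : ∀ c : H, φ (s (φ c)) = φ c := by
    intro c
    have h : ∃ s : H, φ s = φ c := hs c
    show φ ((if h : ∃ s : H, φ s = φ c then h.choose else 1 : H) : G) = φ c
    rw [dif_pos h]
    exact h.choose_spec
  refine Nat.card_le_card_of_injective
    (fun c : H => ((φ c, ⟨(c : G) * (s (φ c) : G) ^ 2,
      H.mul_mem c.2 (H.pow_mem (s (φ c)).2 2), hP c c.2 _ (s (φ c)).2 (hsq c).symm⟩) :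
        Q × {c : G // c ∈ H ∧ P c})) ?_
  intro c c' hcc
  simp only [Prod.mk.injEq, Subtype.mk.injEq] at hcc
  obtain ⟨h1, h2⟩ := hcc
  rw [h1] at h2
  exact Subtype.ext (mul_right_cancel h2)

theorem t_AMB : S_AMB := by
  intro F M _ _ _ _ _ _ h3 H hH
  have hcard : Nat.card (M ≃ₐ[F] M) = 3 := by rw [IsGalois.card_aut_eq_finrank, h3]
  have : Fact (Nat.Prime 3) := ⟨Nat.prime_three⟩
  have : IsCyclic (M ≃ₐ[F] M) := isCyclic_of_prime_card hcard
  obtain ⟨σ, hσ⟩ := IsCyclic.exists_generator (α := M ≃ₐ[F] M)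
  have data : ∀ c : ClassGroup (𝓞 M), c ∈ H → ∃ (I : (Ideal (𝓞 M))⁰) (x y : 𝓞 M) (u : (𝓞 F)ˣ),
      ClassGroup.mk0 I = c ∧ x ≠ 0 ∧ y ≠ 0 ∧
      Ideal.span {x} * (I : Ideal (𝓞 M)) = Ideal.span {y} * (I : Ideal (𝓞 M)).map (sg σ : 𝓞 M →+* 𝓞 M) ∧
      Algebra.norm F (x : M) * ((u : 𝓞 F) : F) = Algebra.norm F (y : M) := by
    intro c hc
    obtain ⟨I, rfl⟩ := ClassGroup.mk0_surjective c
    have hI0 : (I : Ideal (𝓞 M)) ≠ ⊥ := mem_nonZeroDivisors_iff_ne_zero.1 I.2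
    have hJ0 : (I : Ideal (𝓞 M)).map (sg σ : 𝓞 M →+* 𝓞 M) ≠ ⊥ := by
      intro h
      exact hI0 ((Ideal.map_eq_bot_iff_of_injective (sg σ).injective).1 h)
    have hfix := (hH _ hc).2 σ I ⟨_, mem_nonZeroDivisors_iff_ne_zero.2 hJ0⟩ rfl rfl
    obtain ⟨x, y, hx, hy, h⟩ := ClassGroup.mk0_eq_mk0_iff.1 hfix.symm
    obtain ⟨u, hu⟩ := norm_unit σ hI0 h
    exact ⟨I, x, y, u, rfl, hx, hy, h, hu⟩
  choose! I x y u hI hx hy h hu using data
  set R : Subgroup (𝓞 F)ˣ := (powMonoidHom 3 : (𝓞 F)ˣ →* (𝓞 F)ˣ).range with hR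
  have : R.FiniteIndex := ⟨(units_index_pos F).ne'⟩
  have hle := units_index_le F
  rw [← hR, Subgroup.index] at hle
  refine (count H (fun c => (QuotientGroup.mk (u c) : (𝓞 F)ˣ ⧸ R)) (InvI F M)
    ?_).trans (Nat.mul_le_mul_right _ hle)
  intro c hc c' hc' hcc
  have h1 : (u c')⁻¹ * u c ∈ R := QuotientGroup.eq.1 hcc.symm
  obtain ⟨w, hw⟩ := h1
  have hw' : u c = u c' * w ^ 3 := by
    have : w ^ 3 = (u c')⁻¹ * u c := hw
    rw [this, mul_inv_cancel_left]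
  have := inv_of_coset h3 σ hσ (hx c hc) (hy c hc) (hx c' hc') (hy c' hc') (h c hc) (h c' hc') (u c) (u c') w
    (hu c hc) (hu c' hc') hw'
  rw [hI c hc, hI c' hc'] at this
  exact this

end K1H26.SX
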